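import Mathlib

/-!
# Primitive ray class characters of number fields: definitions
-/

set_option autoImplicit false

open NumberField NumberField.InfinitePlace

namespace Pool.Agent.H20.RCH

section

variable {K : Type} [Field K]

/-- The product of the signs of `x` at the real places in `S`. -/
noncomputable def sgn (S : Finset {v : InfinitePlace K // v.IsReal}) (x : K) : ℂ :=
  ∏ v ∈ S, if 0 < embedding_of_isReal v.2 x then 1 else -1

variable (K)

/-- A nontrivial primitive ray class character of `K`: a multiplicative function `ψ` on the ideals,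
of absolute value `1` at the nonzero ideals prime to `f` and `0` at the others, with
`ψ((a)) = ∏_{v ∈ S} sgn_v(a)` for `a ≡ 1 mod f`, such that this fails for some `a ≡ 1 mod f P⁻¹`
prime to `f`, for each prime divisor `P` of `f`. The conductor of the character consists of `f` and
of the set `S` of real places. -/
structure PrimRay where
  /-- the finite part of the conductor -/
  f : Ideal (𝓞 K)
  /-- the real places in the conductor -/
  S : Finset {v : InfinitePlace K // v.IsReal}
  /-- the character -/
  ψ : Ideal (𝓞 K) → ℂ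
  f_ne : f ≠ ⊥
  map_top : ψ ⊤ = 1
  map_mul : ∀ I J, ψ (I * J) = ψ I * ψ J
  map_bot : ψ ⊥ = 0
  norm_one : ∀ I, I ≠ ⊥ → I ⊔ f = ⊤ → ‖ψ I‖ = 1
  eq_zero : ∀ I, I ⊔ f ≠ ⊤ → ψ I = 0
  princ : ∀ a : 𝓞 K, a ≠ 0 → a - 1 ∈ f → ψ (Ideal.span {a}) = sgn S (a : K)
  prim : ∀ P : Ideal (𝓞 K), P.IsPrime → f ≤ P → ∃ a : 𝓞 K, a ≠ 0 ∧ Ideal.span {a} ⊔ f = ⊤ ∧
    (∀ x ∈ P, (a - 1) * x ∈ f) ∧ ψ (Ideal.span {a}) ≠ sgn S (a : K)
  nontrivial : ∃ I : Ideal (𝓞 K), ψ I ≠ 0 ∧ ψ I ≠ 1

variable {K}
variable [NumberField K]

/-- The Dirichlet series `∑ ψ(I) N(I)^(-s)`, the sum over all nonzero ideals of `𝓞 K`. -/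
noncomputable def PrimRay.series (χ : PrimRay K) (s : ℂ) : ℂ :=
  ∑' I : {I : Ideal (𝓞 K) // I ≠ ⊥}, χ.ψ I.1 * (Ideal.absNorm I.1 : ℂ) ^ (-s)

/-- The conductor of the `L`-function: `|d_K| N(f)`. -/
noncomputable def PrimRay.cond (χ : PrimRay K) : ℕ :=
  (discr K).natAbs * Ideal.absNorm χ.f

/-- The analytic conductor: `|d_K| N(f) 2^(r + r₂)`, with `r` the number of real places in the
conductor of the character and `r₂` the number of complex places of `K`. -/
noncomputable def PrimRay.C (χ : PrimRay K) : ℝ :=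
  χ.cond * 2 ^ (χ.S.card + nrComplexPlaces K)

end

/-- A number field `K` of degree `m` and a nontrivial primitive ray class character of `K`. -/
structure RayChar (m : ℕ) where
  /-- the number field -/
  K : Type
  [field : Field K]
  [numberField : NumberField K]
  finrank_eq : Module.finrank ℚ K = m
  /-- the character -/
  χ : PrimRay K

attribute [instance] RayChar.field RayChar.numberField

end Pool.Agent.H20.RCH
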