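import Pool.Agent.H20.HKI.Leaf
import Pool.Agent.H20.RCH.Defs

/-!
# The family of primitive ray class characters
-/

set_option autoImplicit false

open NumberField NumberField.InfinitePlace Complex

namespace Pool.Agent.H20.RCH

open Pool.Agent.H23.GLM Pool.Agent.H23.DZ

variable {m : ℕ}

/-- the structure of helper28 -/
noncomputable def PrimRay.toRCC {K : Type} [Field K] [NumberField K] (χ : PrimRay K) :
    Pool.Agent.H28.RC.RCC K where
  f := χ.f
  S := χ.S
  ψ := χ.ψ
  f_ne := χ.f_ne
  map_one := χ.map_top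
  map_mul := χ.map_mul
  map_bot := χ.map_bot
  norm_one := χ.norm_one
  eq_zero := χ.eq_zero
  princ := χ.princ
  prim := χ.prim

/-- the structure of `HKI` -/
noncomputable def RayChar.toHKI (π : RayChar m) : Pool.Agent.H20.HKI.RayChar m where
  K := π.K
  finrank_eq := π.finrank_eq
  χ := π.χ.toRCC
  nontrivial := π.χ.nontrivial

/-- The nontrivial primitive ray class characters of number fields of degree `m` define `L`-data of
degree `m`; every set of them has all the properties which are assumed in the theorems on the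
Grand Lindelof Hypothesis. -/
theorem family (m : ℕ) : ∃ e : RayChar m → LData m,
    (∀ π : RayChar m, (∀ s : ℂ, 1 < s.re → (e π).L s = π.χ.series s) ∧
      Differentiable ℂ (e π).L ∧ (e π).N = π.χ.cond ∧ (e π).C = π.χ.C) ∧
    ∀ S : Set (RayChar m), Molteni (e '' S) ∧ FarBounds (e '' S) ∧
      Pool.Agent.H61.Ray.HasGap (e '' S) (1 / 2) ∧ ∀ D ∈ e '' S, HasEuler D := by
  obtain ⟨e, h1, h2⟩ := Pool.Agent.H20.HKI.family m
  refine ⟨fun π => e π.toHKI, fun π => ⟨fun s hs => (h1 π.toHKI).1 s hs, (h1 π.toHKI).2.1,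
    (h1 π.toHKI).2.2.1, ?_⟩, fun S => ?_⟩
  · rw [(h1 π.toHKI).2.2.2, (h1 π.toHKI).2.2.1]
    rfl
  · have h3 : (fun π : RayChar m => e π.toHKI) '' S = e '' (RayChar.toHKI '' S) := by
      rw [Set.image_image]
    rw [h3]
    exact h2 _

end Pool.Agent.H20.RCH
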